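import Pool.Agent.Helper31.BC.Stmts2

set_option autoImplicit false

/-! Existence of branch-and-cut proofs. -/

namespace Pool.Agent.Helper31.BC

/-- lower line -/
noncomputable def exL {n : ℕ} (e : Pair n) (c : ℝ) : Ineq n := ⟨fun e' => if e' = e then 1 else 0, c⟩

/-- upper line -/
noncomputable def exU {n : ℕ} (e : Pair n) (c : ℝ) : Ineq n := ⟨fun e' => if e' = e then -1 else 0, c⟩

theorem ex_sum {n : ℕ} (x : Pair n → ℤ) (e : Pair n) (c : ℝ) :
    ∑ e', (if e' = e then c else 0) * (x e' : ℝ) = c * x e := by
  rw [Finset.sum_eq_single e]
  · simp
  · intro b _ hb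
    rw [if_neg hb, zero_mul]
  · intro h
    exact absurd (Finset.mem_univ _) h

theorem ex_bound {n : ℕ} {P : Fin n → ℤ × ℤ} {B : ℝ} {x : Pair n → ℤ} (hx : Relax P B x)
    (e : Pair n) : -(Fintype.card (Pair n) : ℤ) ≤ x e := by
  have h1 := hx.deg e.1.1
  have h2 : ∑ e' : Pair n, (if e'.1.1 = e.1.1 ∨ e'.1.2 = e.1.1 then x e' else 0) ≤
      ∑ e' : Pair n, (if e' = e then x e - 1 else 0) + ∑ _e' : Pair n, (1 : ℤ) := by
    rw [← Finset.sum_add_distrib]
    apply Finset.sum_le_sum
    intro e' _
    by_cases h : e' = e
    · subst h
      simp
    · rw [if_neg h]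
      have := hx.le_one e'
      split_ifs <;> omega
  rw [h1, Finset.sum_ite_eq' Finset.univ e, if_pos (Finset.mem_univ _), Finset.sum_const,
    Finset.card_univ, nsmul_eq_mul, mul_one] at h2
  push_cast at h2
  linarith

theorem st_EX (hTR : ST_TR) (hCPL : ST_CPL) : ST_EX := by
  intro n P B hn hB
  classical
  have main : ∀ (T : Finset (Pair n)) (Γ : Set (Ineq n)) (z : Pair n → ℤ),
      (∀ e, nonneg e ∈ Γ) → (∀ e, z e = 0 ∨ z e = 1) →
      (∀ e, e ∉ T → exL e (z e : ℝ) ∈ Γ ∧ exU e (-(z e : ℝ)) ∈ Γ) →
      ∃ t, Refutes (Relax P B) Γ t := by
    intro T
    induction T using Finset.induction_on with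
    | empty =>
      intro Γ z hΓ hz hl
      refine hCPL n (Fintype.card (Pair n) + 1) (Relax P B) Γ z ?_ ?_ (fun e => (hl e (by simp)).1)
        (fun e => (hl e (by simp)).2)
      · intro x hx e
        have h1 := ex_bound hx e
        have h2 := hx.le_one e
        rw [abs_le]
        push_cast
        rcases hz e with h | h <;> rw [h] <;> constructor <;> linarith
      · intro hz'
        obtain ⟨σ, hσ⟩ := hTR n z hn (fun e => by rcases hz e with h | h <;> omega) hz'.deg hz'.cut
        have h1 := hσ (fun i j => dst (P i) (P j)) (fun i j => by
          unfold dst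
          congr 1
          push_cast
          ring)
        have h2 := hz'.len
        have h3 := hB σ
        unfold tourLen at h3
        rw [h1] at h2
        linarith
    | insert e T he ih =>
      intro Γ z hΓ hz hl
      obtain ⟨s, hs⟩ := ih (insert ⟨fun e' => -(((if e' = e then 1 else 0 : ℤ)) : ℝ), -((0 : ℤ) : ℝ)⟩ Γ)
        (Function.update z e 0) (fun e' => Set.mem_insert_of_mem _ (hΓ e')) (by
          intro e'
          by_cases h : e' = e
          · subst h; simp
          · rw [Function.update_of_ne h]; exact hz e') (by
          intro e' he'
          by_cases h : e' = e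
          · subst h
            constructor
            · apply Set.mem_insert_of_mem
              have := hΓ e'
              unfold nonneg at this
              unfold exL
              simpa using this
            · apply Set.mem_insert_iff.2
              left
              unfold exU
              congr 1
              · funext e''
                by_cases h : e'' = e' <;> simp [h]
              · simp
          · rw [Function.update_of_ne h]
            have := hl e' (by simp [h, he'])
            exact ⟨Set.mem_insert_of_mem _ this.1, Set.mem_insert_of_mem _ this.2⟩)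
      obtain ⟨t, ht⟩ := ih (insert (exU e (-1))
        (insert ⟨fun e' => (((if e' = e then 1 else 0 : ℤ)) : ℝ), ((0 : ℤ) : ℝ) + 1⟩ Γ))
        (Function.update z e 1)
        (fun e' => Set.mem_insert_of_mem _ (Set.mem_insert_of_mem _ (hΓ e'))) (by
          intro e'
          by_cases h : e' = e
          · subst h; simp
          · rw [Function.update_of_ne h]; exact hz e') (by
          intro e' he'
          by_cases h : e' = e
          · subst h
            constructor
            · apply Set.mem_insert_of_mem
              apply Set.mem_insert_iff.2
              left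
              unfold exL
              congr 1
              · funext e''
                by_cases h : e'' = e' <;> simp [h]
              · simp
            · apply Set.mem_insert_iff.2
              left
              simp
          · rw [Function.update_of_ne h]
            have := hl e' (by simp [h, he'])
            exact ⟨Set.mem_insert_of_mem _ (Set.mem_insert_of_mem _ this.1),
              Set.mem_insert_of_mem _ (Set.mem_insert_of_mem _ this.2)⟩)
      refine ⟨s + (t + 1) + 1, Refutes.branch (fun e' => if e' = e then 1 else 0) 0 hs ?_⟩
      refine Refutes.cut (nonneg e) (nonneg e) (exU e (-1)) (Set.mem_insert_of_mem _ (hΓ e))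
        (Set.mem_insert_of_mem _ (hΓ e)) ?_ ht
      intro x hx _ _
      unfold Ineq.Holds exU
      simp only
      rw [ex_sum]
      have := hx.le_one e
      have h2 : (x e : ℝ) ≤ 1 := by exact_mod_cast this
      linarith
  exact main Finset.univ (Set.range nonneg) (fun _ => 0) (fun e => ⟨e, rfl⟩) (fun _ => Or.inl rfl)
    (fun e he => absurd (Finset.mem_univ e) he)

end Pool.Agent.Helper31.BC
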