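import Pool.Agent.Helper31.BC.Final
import Pool.Agent.Helper31.BC.EX
import Pool.Agent.Helper23.BC.CON2
import Pool.Agent.Helper23.BC.DEG
import Pool.Agent.Helper26.BC.ADD
import Pool.Agent.Helper27.BC.EVC
import Pool.Agent.Helper30.BC.EV
import Pool.Agent.Helper35.BC.EVB
import Pool.Agent.Helper38.BC.FRM
import Pool.Agent.Helper44.BC.EVD
import Pool.Agent.Helper44.BC.PAIR
import Pool.Agent.Helper44.BC.SIZF
import Pool.Agent.Helper44.BC.TR
import Pool.Agent.Helper53.BC.UNS
import Pool.Agent.Helper55.BC.LB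
import Pool.Agent.Helper58.BC.CPL
import Pool.Agent.Helper58.BC.CUT
import Pool.Agent.Helper67.BC.SUM
import Pool.Agent.Helper68.BC.NUM
import Pool.Agent.Helper7.BC.SIZ
import Pool.Agent.Helper71.BC.CHS
import Pool.Agent.Helper74.BC.COR
import Pool.Agent.Helper74.BC.EXTL
import Pool.Agent.Helper74.BC.NOT
import Pool.Agent.Helper74.BC.SND
import Pool.Agent.Helper8.BC.LIT
import Pool.Agent.Helper31.BC.Con1
import Pool.Agent.Helper95.BC.REL
import Pool.Agent.Helper97.BC.CIRC
import Pool.Agent.Helper99.BC.SPL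

set_option autoImplicit false

namespace Pool.Agent.Helper31.BC

theorem all_EV : ST_EV := st_EV (st_EVD st_PAIR) (st_EVC st_PAIR st_EXTL) (st_EVB st_PAIR st_EXTL)

theorem all_LB : ST_LB := st_LB st_CIRC all_EV st_COR

theorem all_CUT : ST_CUT := st_CUT st_DEG st_CON1 st_CON2

theorem all_SPL : ST_SPL := st_SPL st_ADD all_CUT (st_REL st_SUM) st_CHS st_FRM st_LIT

theorem all_FINAL : specFinal :=
  st_FINAL all_LB all_SPL st_NOT st_SND st_UNS st_FRM st_SIZ st_SIZF st_NUM

theorem all_FINAL2 : specFinal2 := final2 all_FINAL (st_EX st_TR st_CPL)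

end Pool.Agent.Helper31.BC
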