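import Mathlib

set_option autoImplicit false

/-! Branch-and-cut proofs for Euclidean TSP: the definitions of the final statement. -/

namespace Pool.Agent.Helper31.BC

/-- Euclidean distance between two points of `ℤ²`, as an exact real number. -/
noncomputable def dst (p q : ℤ × ℤ) : ℝ :=
  Real.sqrt (((p.1 - q.1 : ℤ) : ℝ) ^ 2 + ((p.2 - q.2 : ℤ) : ℝ) ^ 2)

/-- Exact Euclidean length of the closed tour which visits the points in the order
`σ 0, σ 1, ..., σ (n-1)` and returns to `σ 0`. -/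
noncomputable def tourLen {n : ℕ} (P : Fin n → ℤ × ℤ) (σ : Equiv.Perm (Fin n)) : ℝ :=
  ∑ i, dst (P (σ i)) (P (σ (finRotate n i)))

/-- `n` distinct points of `{0, ..., R}²` -/
def Placement {n : ℕ} (R : ℕ) (P : Fin n → ℤ × ℤ) : Prop :=
  Function.Injective P ∧ ∀ i, 0 ≤ (P i).1 ∧ (P i).1 ≤ R ∧ 0 ≤ (P i).2 ∧ (P i).2 ≤ R

/-- The edges of the complete graph on the cities `0, ..., n-1`. -/
abbrev Pair (n : ℕ) := {e : Fin n × Fin n // e.1 < e.2}

/-- The linear inequality `∑ a e * x e ≥ b` in the edge variables, with real coefficients. -/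
structure Ineq (n : ℕ) where
  a : Pair n → ℝ
  b : ℝ

/-- The integral vector `x` satisfies the inequality. -/
def Ineq.Holds {n : ℕ} (l : Ineq n) (x : Pair n → ℤ) : Prop := l.b ≤ ∑ e, l.a e * x e

/-- The inequality `x e ≥ 0`. -/
def nonneg {n : ℕ} (e : Pair n) : Ineq n := ⟨fun e' => if e' = e then 1 else 0, 0⟩

/-- All constraints of the subtour relaxation for tours of length at most `B`, except the
inequalities `x e ≥ 0`, for integral vectors: degree equations, subtour elimination, upper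
bounds, exact length at most `B`. -/
structure Relax {n : ℕ} (P : Fin n → ℤ × ℤ) (B : ℝ) (x : Pair n → ℤ) : Prop where
  deg : ∀ v : Fin n, ∑ e : Pair n, (if e.1.1 = v ∨ e.1.2 = v then x e else 0) = 2
  cut : ∀ S : Finset (Fin n), S.Nonempty → S ≠ Finset.univ →
    2 ≤ ∑ e : Pair n, (if (e.1.1 ∈ S ↔ e.1.2 ∈ S) then 0 else x e)
  le_one : ∀ e, x e ≤ 1
  len : ∑ e : Pair n, dst (P e.1.1) (P e.1.2) * x e ≤ B

/-- `Refutes K Γ t`: there is a branch-and-cut proof with `t` nodes that no integral vector in `K`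
satisfies all inequalities of `Γ`. At a node, `Γ` is the set of the inequalities available there.
* `done`: an available inequality has no integral solution in `K`;
* `cut`: add any inequality `l` which holds at all integral vectors in `K` satisfying the
  available inequalities `u`, `w`;
* `branch`: branch on `∑ a e * x e ≤ b` or `∑ a e * x e ≥ b + 1`, with arbitrary integers. -/
inductive Refutes {n : ℕ} (K : (Pair n → ℤ) → Prop) : Set (Ineq n) → ℕ → Prop
  | done {Γ : Set (Ineq n)} (u : Ineq n) (hu : u ∈ Γ) (h : ∀ x, K x → ¬ u.Holds x) :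
      Refutes K Γ 1
  | cut {Γ : Set (Ineq n)} {t : ℕ} (u w l : Ineq n) (hu : u ∈ Γ) (hw : w ∈ Γ)
      (h : ∀ x, K x → u.Holds x → w.Holds x → l.Holds x) (p : Refutes K (insert l Γ) t) :
      Refutes K Γ (t + 1)
  | branch {Γ : Set (Ineq n)} {s t : ℕ} (a : Pair n → ℤ) (b : ℤ)
      (p : Refutes K (insert ⟨fun e => -(a e : ℝ), -(b : ℝ)⟩ Γ) s)
      (q : Refutes K (insert ⟨fun e => (a e : ℝ), (b : ℝ) + 1⟩ Γ) t) :
      Refutes K Γ (s + t + 1)

/-- The final theorem. -/
def specFinal : Prop := ∃ k : ℕ, ∀ N : ℕ, ∃ n, N ≤ n ∧ ∃ (P : Fin n → ℤ × ℤ) (B : ℕ),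
  Placement (n ^ k) P ∧ (∀ σ, (B : ℝ) < tourLen P σ) ∧
  ∀ t, Refutes (Relax P B) (Set.range nonneg) t → Real.exp ((n : ℝ) ^ (1 / 15 : ℝ)) ≤ t

end Pool.Agent.Helper31.BC
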