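import Pool.Agent.Helper31.BC.Stmts
import Pool.Agent.Helper34.Grid.FD
import Pool.Agent.Helper99.Grid.Box
import Pool.Agent.Helper99.Grid.Compl

set_option autoImplicit false

/-! Assembly of the lower bound for branch-and-cut proofs. -/

namespace Pool.Agent.Helper31.BC

open Pool.Agent.Helper38.MR (Edge Graph clq mpt Gate Simple out trv)
open Pool.Agent.Helper52.Grid
open Pool.Agent.Helper68.LP (pert dbl ucost scale Costs vert_box)

/-- the list of the vertices in the box -/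
def finL (h v : ℕ → ℕ → ℕ) (N : ℕ) : List Pt :=
  ((List.range (N + 1)).flatMap fun x => (List.range (N + 1)).map fun y => (x, y)).filter
    (fun a => decide (h a.1 a.2 = 0 ∨ h (a.1 - 1) a.2 = 0 ∨ v a.1 a.2 = 0 ∨ v a.1 (a.2 - 1) = 0))

theorem finL_nodup (h v : ℕ → ℕ → ℕ) (N : ℕ) : (finL h v N).Nodup := by
  unfold finL
  apply List.Nodup.filter
  rw [List.nodup_flatMap]
  constructor
  · intro x _
    exact List.Nodup.map (fun a b h => (Prod.ext_iff.1 h).2) List.nodup_range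
  · refine List.Pairwise.imp ?_ List.nodup_range
    intro a b hab
    intro p hp hq
    rw [List.mem_map] at hp hq
    obtain ⟨y, _, rfl⟩ := hp
    obtain ⟨z, _, h⟩ := hq
    exact hab (Prod.ext_iff.1 h).1.symm

theorem mem_finL {h v : ℕ → ℕ → ℕ} {N : ℕ} (hB : Box h v N) (a : Pt) :
    a ∈ finL h v N ↔ Vert h v a := by
  unfold finL
  rw [List.mem_filter, decide_eq_true_iff]
  constructor
  · exact fun h => h.2
  · intro h
    refine ⟨?_, h⟩
    have hb := vert_box hB h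
    rw [List.mem_flatMap]
    refine ⟨a.1, List.mem_range.2 (by omega), ?_⟩
    rw [List.mem_map]
    exact ⟨a.2, List.mem_range.2 (by omega), rfl⟩

theorem fin_fdeg {S : List Sub} {M N : ℕ} (hB : Box (hC S M) (vC S M) N)
    (hrow : ∀ k i d, sg S k = some (i, d) → i < 2 * M + 1) (h0 : 0 < S.length → sg S 0 = none)
    {a : Pt} (ha : Vert (hC S M) (vC S M) a) : Pool.Agent.Helper68.LP.fdeg (hC S M) (vC S M) a ≤ 2 := by
  have h2 := Pool.Agent.Helper34.Grid.mod_FD S M hrow h0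
  obtain ⟨x, y⟩ := a
  cases x with
  | zero =>
    exfalso
    unfold Vert at ha
    simp only [Nat.zero_sub] at ha
    rw [hB.hx, hB.vx, hB.vx] at ha
    omega
  | succ x =>
    cases y with
    | zero =>
      exfalso
      unfold Vert at ha
      simp only [Nat.zero_sub] at ha
      rw [hB.hy, hB.hy, hB.vy] at ha
      omega
    | succ y => exact h2 x y

theorem fin_sum_le (g : Pt → ℕ) : ∀ l : List Pt, (∀ a ∈ l, g a ≤ 2) →
    (l.map g).sum ≤ 2 * l.length := by
  intro l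
  induction l with
  | nil => intro _; simp
  | cons a l ih =>
    intro h
    have h1 := h a List.mem_cons_self
    have h2 := ih (fun b hb => h b (List.mem_cons_of_mem _ hb))
    rw [List.map_cons, List.sum_cons, List.length_cons]
    omega

/-- bounds for the coordinates of the perturbed points -/
theorem fin_pert {h v : ℕ → ℕ → ℕ} {N Sc : ℕ} (hc : Costs h v) {a : Pt} (ha : a.1 ≤ N ∧ a.2 ≤ N) :
    0 ≤ (pert (dbl h) (dbl v) (Sc : ℕ) a).1 ∧
    (pert (dbl h) (dbl v) (Sc : ℕ) a).1 ≤ ((Sc * N + 8 * N : ℕ) : ℤ) ∧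
    0 ≤ (pert (dbl h) (dbl v) (Sc : ℕ) a).2 ∧
    (pert (dbl h) (dbl v) (Sc : ℕ) a).2 ≤ ((Sc * N + 8 * N : ℕ) : ℤ) := by
  have key : ∀ (g : ℕ → ℕ) (n : ℕ), (∀ i, g i ≤ 4) → n ≤ N →
      0 ≤ (Sc : ℤ) * n + ∑ i ∈ Finset.range n, (2 * (g i : ℤ)) ∧
      (Sc : ℤ) * n + ∑ i ∈ Finset.range n, (2 * (g i : ℤ)) ≤ ((Sc * N + 8 * N : ℕ) : ℤ) := by
    intro g n hg hn
    have h1 : 0 ≤ ∑ i ∈ Finset.range n, (2 * (g i : ℤ)) :=
      Finset.sum_nonneg fun i _ => by positivity
    have h2 : ∑ i ∈ Finset.range n, (2 * (g i : ℤ)) ≤ ∑ _i ∈ Finset.range n, (8 : ℤ) :=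
      Finset.sum_le_sum fun i _ => by have := hg i; omega
    rw [Finset.sum_const, Finset.card_range, nsmul_eq_mul] at h2
    have h3 : (Sc : ℤ) * n ≤ Sc * N := by
      apply mul_le_mul_of_nonneg_left _ (by positivity)
      exact_mod_cast hn
    constructor
    · have : (0 : ℤ) ≤ (Sc : ℤ) * n := by positivity
      linarith
    · push_cast
      have : (n : ℤ) ≤ N := by exact_mod_cast hn
      linarith
  have hh : ∀ x y, h x y ≤ 4 := fun x y => by rcases hc.1 x y with g | g | g <;> omega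
  have hv : ∀ x y, v x y ≤ 4 := fun x y => by rcases hc.2 x y with g | g | g <;> omega
  have k1 := key (fun i => h i a.2) a.1 (fun i => hh _ _) ha.1
  have k2 := key (fun i => v a.1 i) a.2 (fun i => hv _ _) ha.2
  exact ⟨k1.1, k1.2, k2.1, k2.2⟩

theorem fin_size {n N W : ℕ} (hn : 20 ≤ n) (hN : N ≤ 2 * n + 18) (hW : W ≤ 2 * n) :
    scale n (2 * N) 4 W * N + 8 * N ≤ n ^ 20 := by
  have hN' : N ≤ 3 * n := by omega
  have h1 : scale n (2 * N) 4 W ≤ 5000 * n ^ 3 := by
    unfold scale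
    have e1 : (2 * N * 4) ^ 2 ≤ (24 * n) ^ 2 := Nat.pow_le_pow_left (by omega) 2
    have e2 : 8 * n * (2 * N * 4) ^ 2 ≤ 8 * n * (24 * n) ^ 2 := Nat.mul_le_mul_left _ e1
    have e3 : 8 * n * (24 * n) ^ 2 = 4608 * n ^ 3 := by ring
    have e4 : 400 * n ≤ n ^ 3 := by
      have : 20 * 20 ≤ n * n := Nat.mul_le_mul hn hn
      calc 400 * n ≤ (n * n) * n := Nat.mul_le_mul_right _ this
        _ = n ^ 3 := by ring
    have e5 : 16 * (2 * N * 4) + 6 * W + 2 * 4 + 7 ≤ 392 * n ^ 3 := by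
      have : 16 * (2 * N * 4) + 6 * W + 2 * 4 + 7 ≤ 400 * n := by omega
      nlinarith
    omega
  have h2 : scale n (2 * N) 4 W * N ≤ 5000 * n ^ 3 * (3 * n) := Nat.mul_le_mul h1 hN'
  have h3 : 5000 * n ^ 3 * (3 * n) = 15000 * n ^ 4 := by ring
  have h4 : 8 * N ≤ n ^ 4 := by
    have : 20 * 20 * 20 ≤ n * n * n := Nat.mul_le_mul (Nat.mul_le_mul hn hn) hn
    calc 8 * N ≤ 24 * n := by omega
      _ ≤ (n * n * n) * n := Nat.mul_le_mul_right _ (by omega)
      _ = n ^ 4 := by ring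
  have h5 : 15001 ≤ n ^ 16 := by
    calc 15001 ≤ 20 ^ 16 := by norm_num
      _ ≤ n ^ 16 := Nat.pow_le_pow_left hn 16
  calc scale n (2 * N) 4 W * N + 8 * N ≤ 15001 * n ^ 4 := by omega
    _ ≤ n ^ 16 * n ^ 4 := Nat.mul_le_mul_right _ h5
    _ = n ^ 20 := by ring

theorem st_FINAL (hLB : ST_LB) (hSPL : ST_SPL) (hNOT : ST_NOT) (hSND : ST_SND) (hUNS : ST_UNS)
    (hFRM : ST_FRM) (hSIZ : ST_SIZ) (hSIZF : ST_SIZF) (hNUM : ST_NUM) : specFinal := by
  obtain ⟨s₀, hs₀⟩ := hNUM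
  refine ⟨20, fun N₀ => ?_⟩
  obtain ⟨s, hs1, hs2, hs3⟩ : ∃ s, s₀ ≤ s ∧ N₀ ≤ s ∧ 20 ≤ s :=
    ⟨s₀ + N₀ + 20, by omega, by omega, by omega⟩
  -- the formula
  obtain ⟨k, hk⟩ : ∃ k, k = 4 * s ^ 2 + 1 := ⟨_, rfl⟩
  obtain ⟨q, hq⟩ : ∃ q, q = 8 * s := ⟨_, rfl⟩
  obtain ⟨l, hl⟩ : ∃ l, l = 4 * s ^ 2 := ⟨_, rfl⟩
  have hq0 : 0 < q := by omega
  have hs2' : s ≤ s ^ 2 := by nlinarith
  have hl0 : 0 < l := by omega
  have hk2 : s ≤ k := by omega
  have hlk : l < k := by omega
  obtain ⟨S, hS⟩ : ∃ S, S = subs (ccF k q l) := ⟨_, rfl⟩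
  obtain ⟨M, hM⟩ : ∃ M, M = ccM k q l := ⟨_, rfl⟩
  have hσ : (Fin k → Fin q) := fun _ => ⟨0, hq0⟩
  have hχ : (Fin (k * q) → Fin l) := fun _ => ⟨0, hl0⟩
  have hvar : ∀ c ∈ ccF k q l, ∀ y ∈ c, y.1 < 2 * M + 1 := by
    rw [hM]; exact (hFRM k q l hσ hχ).2.2.1
  have hrow : ∀ k' i d, sg S k' = some (i, d) → i < 2 * M + 1 := by
    rw [hS]; exact Pool.Agent.Helper99.Grid.subs_bound hvar
  have h00 : 0 < S.length → sg S 0 = none := by
    rw [hS]; exact Pool.Agent.Helper99.Grid.subs_zero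
  obtain ⟨N, hN⟩ : ∃ N, N = 8 + 4 * S.length + 12 * M + 10 := ⟨_, rfl⟩
  have hB : Box (hC S M) (vC S M) N := by rw [hN]; exact Pool.Agent.Helper99.Grid.box S M
  have hc : Costs (hC S M) (vC S M) := Pool.Agent.Helper34.Grid.mod_Vals _ _
  -- the vertices
  obtain ⟨L, hL⟩ : ∃ L, L = finL (hC S M) (vC S M) N := ⟨_, rfl⟩
  have hLn : L.Nodup := by rw [hL]; exact finL_nodup _ _ _
  have hLm : ∀ a, a ∈ L ↔ Vert (hC S M) (vC S M) a := by rw [hL]; exact mem_finL hB
  obtain ⟨z1, z2⟩ := hSIZ M S L hLn hLm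
  obtain ⟨y1, y2⟩ := hSIZF k q l (by omega) (by omega) (by omega)
  rw [← hS] at y1 y2
  have hnk : s ≤ L.length := by omega
  obtain ⟨W, hW⟩ : ∃ W, W + (L.map (Pool.Agent.Helper68.LP.fdeg (hC S M) (vC S M))).sum = 2 * L.length := by
    have := fin_sum_le (Pool.Agent.Helper68.LP.fdeg (hC S M) (vC S M)) L
      (fun a ha => fin_fdeg hB hrow h00 ((hLm a).1 ha))
    exact ⟨2 * L.length - (L.map (Pool.Agent.Helper68.LP.fdeg (hC S M) (vC S M))).sum, by omega⟩
  have hfsum : ∑ i : Fin L.length, Pool.Agent.Helper68.LP.fdeg (hC S M) (vC S M) (L.get i) =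
      (L.map (Pool.Agent.Helper68.LP.fdeg (hC S M) (vC S M))).sum := by
    rw [← List.sum_ofFn]
    congr 1
    apply List.ext_get
    · simp
    · intro k h1 h2
      simp
  have hinj : Function.Injective L.get := List.nodup_iff_injective_get.mp hLn
  have hvm : ∀ a, Vert (hC S M) (vC S M) a ↔ ∃ i, L.get i = a := by
    intro a
    rw [← hLm, List.mem_iff_get]
  refine ⟨L.length, by omega, fun i => pert (dbl (hC S M)) (dbl (vC S M))
    (scale L.length (2 * N) 4 W : ℕ) (L.get i),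
    L.length * scale L.length (2 * N) 4 W + (2 * W + 1), ⟨?_, ?_⟩, ?_, ?_⟩
  · -- distinct points
    refine Pool.Agent.Helper68.LP.pert_injective (N := N) (C := 8) ⟨?_, ?_⟩ _ hinj
      (fun i => vert_box hB ((hLm _).1 (List.get_mem _ i))) ?_ ?_
    · intro x y
      unfold dbl
      have := hc.1 x y
      rw [abs_of_nonneg (by positivity)]
      push_cast
      omega
    · intro x y
      unfold dbl
      have := hc.2 x y
      rw [abs_of_nonneg (by positivity)]
      push_cast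
      omega
    · unfold scale
      have h2 : 4 ≤ 16 * (2 * N * 4) := by omega
      push_cast
      have : (0 : ℤ) ≤ 8 * L.length * (2 * N * 4) ^ 2 := by positivity
      have : (0 : ℤ) ≤ W := by positivity
      have : (18 : ℤ) ≤ N := by
        have : 18 ≤ N := by omega
        exact_mod_cast this
      linarith
    · unfold scale
      push_cast
      have : (0 : ℤ) ≤ 8 * L.length * (2 * N * 4) ^ 2 := by positivity
      have : (0 : ℤ) ≤ W := by positivity
      have : (0 : ℤ) ≤ N := by positivity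
      linarith
  · -- size
    intro i
    have hb := vert_box hB ((hLm _).1 (List.get_mem L i))
    obtain ⟨p1, p2, p3, p4⟩ := fin_pert (Sc := scale L.length (2 * N) 4 W) hc hb
    have hsz : scale L.length (2 * N) 4 W * N + 8 * N ≤ L.length ^ 20 :=
      fin_size (by omega) (by omega) (by omega)
    have hsz' : ((scale L.length (2 * N) 4 W * N + 8 * N : ℕ) : ℤ) ≤ ((L.length ^ 20 : ℕ) : ℤ) := by
      exact_mod_cast hsz
    exact ⟨p1, p2.trans hsz', p3, p4.trans hsz'⟩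
  · -- no short tour
    apply hNOT (hC S M) (vC S M) N W L hB hc hLn hLm (by omega) hW
    intro hT
    rw [hS] at hT
    exact hUNS k q l hlk (hSND (ccF k q l) M hvar hT)
  · -- lower bound
    intro t ht
    have hW' : W + ∑ i, Pool.Agent.Helper68.LP.fdeg (hC S M) (vC S M) (L.get i) = 2 * L.length := by rw [hfsum]; exact hW
    have hsp : ∃ (f : (Fin k → Fin q) → Pair L.length → ℤ)
        (g : (Fin (k * q) → Fin l) → Pair L.length → ℤ),
        Split (Relax (fun i => pert (dbl (hC S M)) (dbl (vC S M))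
          (scale L.length (2 * N) 4 W : ℕ) (L.get i))
          ((L.length * scale L.length (2 * N) 4 W + (2 * W + 1) : ℕ) : ℝ))
          (fun σ => clq (trv σ)) (fun χ => mpt χ) f g := by
      rw [hS, hM] at hB hvm hW'
      have := hSPL k q l N W L.length L.get hq0 hl0 (by omega) (by omega) hB hinj hvm hW'
      rw [hS, hM]
      exact this
    obtain ⟨f, g, hfg⟩ := hsp
    have hn14 : L.length ≤ 10 ^ 12 * s ^ 14 := by
      have hm : k * q ≤ 34 * s ^ 3 := by
        rw [hk, hq]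
        have e1 : (4 * s ^ 2 + 1) * (8 * s) = 32 * s ^ 3 + 8 * s := by ring
        have e2 : 8 * s ≤ 2 * s ^ 3 := by
          have : s ^ 3 = s * s * s := by ring
          nlinarith [Nat.mul_le_mul hs3 hs3]
        omega
      have hm2 : (k * q) ^ 2 ≤ 1156 * s ^ 6 := by
        calc (k * q) ^ 2 ≤ (34 * s ^ 3) ^ 2 := Nat.pow_le_pow_left hm 2
          _ = 1156 * s ^ 6 := by ring
      have hml : (k * q) ^ 2 * l ≤ 4624 * s ^ 8 := by
        rw [hl]
        calc (k * q) ^ 2 * (4 * s ^ 2) ≤ (1156 * s ^ 6) * (4 * s ^ 2) := Nat.mul_le_mul_right _ hm2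
          _ = 4624 * s ^ 8 := by ring
      have hs8 : 1 ≤ s ^ 8 := Nat.one_le_pow _ _ (by omega)
      have hs6 : 1 ≤ s ^ 6 := Nat.one_le_pow _ _ (by omega)
      have hS8 : 8 + 4 * S.length ≤ 370000 * s ^ 8 := by
        have : 20 * (k * q) ^ 2 * l = 20 * ((k * q) ^ 2 * l) := by ring
        omega
      have hM6 : M ≤ 1400 * s ^ 6 := by
        rw [hM]
        unfold ccM
        have e1 : k * q ≤ 34 * s ^ 6 := by
          refine hm.trans ?_
          exact Nat.mul_le_mul_left _ (Nat.pow_le_pow_right (by omega) (by norm_num))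
        have e2 : k * q * l ≤ 136 * s ^ 6 := by
          rw [hl]
          calc k * q * (4 * s ^ 2) ≤ (34 * s ^ 3) * (4 * s ^ 2) := Nat.mul_le_mul_right _ hm
            _ = 136 * s ^ 5 := by ring
            _ ≤ 136 * s ^ 6 :=
              Nat.mul_le_mul_left _ (Nat.pow_le_pow_right (by omega) (by norm_num))
        have e3 : k * q * (k * q) ≤ 1156 * s ^ 6 := by
          have : k * q * (k * q) = (k * q) ^ 2 := by ring
          omega
        omega
      have hM7 : 10 + 12 * M ≤ 16810 * s ^ 6 := by omega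
      calc L.length ≤ (8 + 4 * S.length) * (10 + 12 * M) := z1
        _ ≤ (370000 * s ^ 8) * (16810 * s ^ 6) := Nat.mul_le_mul hS8 hM7
        _ = 6219700000 * s ^ 14 := by ring
        _ ≤ 10 ^ 12 * s ^ 14 := Nat.mul_le_mul_right _ (by norm_num)
    apply hs₀ s hs1 L.length hn14 t
    subst hk hq hl
    exact hLB s (by omega) L.length _ f g hfg t ht

end Pool.Agent.Helper31.BC
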