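import Pool.Agent.Helper31.BC.Defs
import Pool.Agent.Helper38.MR.Spec
import Pool.Agent.Helper52.Grid.Defs
import Pool.Agent.Helper68.LP.TourEq

set_option autoImplicit false

/-! Statements of the modules for the lower bound on branch-and-cut proofs. -/

namespace Pool.Agent.Helper31.BC

open Pool.Agent.Helper38.MR (Edge Graph clq mpt Gate Simple out trv)
open Pool.Agent.Helper52.Grid
open Pool.Agent.Helper68.LP (pert dbl ucost scale Costs)

/-! ## Part I: interpolation -/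

/-- functions of a graph -/
abbrev Fn (m : ℕ) := Graph m → ℝ

/-- `G` is a nondecreasing function of `F₁` and `F₂` -/
def Gen {m : ℕ} (F₁ F₂ G : Fn m) : Prop := ∀ p q, F₁ p ≤ F₁ q → F₂ p ≤ F₂ q → G p ≤ G q

/-- `𝓖` arises from `𝓕` by adding `N` functions, each a nondecreasing function of two others -/
inductive Ext {m : ℕ} (𝓕 : Set (Fn m)) : ℕ → Set (Fn m) → Prop
  | refl : Ext 𝓕 0 𝓕
  | step {N : ℕ} {𝓖 : Set (Fn m)} {F₁ F₂ G : Fn m} (h : Ext 𝓕 N 𝓖) (h₁ : F₁ ∈ 𝓖) (h₂ : F₂ ∈ 𝓖)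
      (hG : Gen F₁ F₂ G) : Ext 𝓕 (N + 1) (insert G 𝓖)

open Classical in
/-- lexicographic pair (as the rank) -/
noncomputable def pair {m : ℕ} (H r : Fn m) : Fn m := fun p =>
  ((Finset.univ.filter fun q : Graph m => H q < H p ∨ (H q = H p ∧ r q < r p)).card : ℝ)

/-- `H'` is a nondecreasing function of `H` -/
def Coarser {m : ℕ} (H' H : Fn m) : Prop := ∀ p q, H p ≤ H q → H' p ≤ H' q

def ST_PAIR : Prop := ∀ (m : ℕ) (H r : Fn m) (p q : Graph m),
  (pair H r p ≤ pair H r q ↔ H p < H q ∨ (H p = H q ∧ r p ≤ r q)) ∧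
  (pair H r p < pair H r q ↔ H p < H q ∨ (H p = H q ∧ r p < r q))

/-- (CIRC) from extensions to circuits -/
def ST_CIRC : Prop := ∀ (m N : ℕ) (𝓖 : Set (Fn m)) (G : Fn m), Ext {F | Simple F} N 𝓖 → G ∈ 𝓖 →
  ∃ C : List (Gate {F : Fn m // Simple F}), (∀ g ∈ C, g.Mono) ∧ C.length ≤ 3 * N + 1 ∧
    ∀ p, out (fun e => e.1 p) C = G p

/-- (EXTL) extensions: composition and monotonicity -/
def ST_EXTL : Prop := ∀ (m : ℕ),
  (∀ (𝓕 𝓖 : Set (Fn m)) (N : ℕ), Ext 𝓕 N 𝓖 → 𝓕 ⊆ 𝓖) ∧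
  (∀ (𝓕 𝓖 𝓗 : Set (Fn m)) (N N' : ℕ), Ext 𝓕 N 𝓖 → Ext 𝓖 N' 𝓗 → Ext 𝓕 (N + N') 𝓗)

/-- the left side of an inequality -/
noncomputable def val {n : ℕ} (l : Ineq n) (x : Pair n → ℤ) : ℝ := ∑ e, l.a e * x e

/-- the data for the interpolation: graphs `gA α`, `gB β` and integral vectors `f α + g β` in `K`
which have a negative coordinate only if the graphs differ in a certain edge -/
structure Split {n m : ℕ} {A B : Type} (K : (Pair n → ℤ) → Prop) (gA : A → Graph m)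
    (gB : B → Graph m) (f : A → Pair n → ℤ) (g : B → Pair n → ℤ) : Prop where
  mem : ∀ α β, K (fun e => f α e + g β e)
  neg : ∀ e, ∃ ε : Edge m, ∀ α β, f α e + g β e < 0 → gA α ε = true ∧ gB β ε = false

/-- `E` evaluates the situation with the inequalities of `Γ`; it can be computed with `N` gates -/
structure Evl {n : ℕ} {A B : Type} (m : ℕ) (f : A → Pair n → ℤ) (g : B → Pair n → ℤ)
    (Γ : Set (Ineq n)) (N : ℕ) (E : (Ineq n → ℝ) → ℝ) : Prop where
  bit : ∀ r, E r = 0 ∨ E r = 1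
  mono : ∀ r r', (∀ l ∈ Γ, r l ≤ r' l) → E r ≤ E r'
  left : ∀ α r, (∀ l ∈ Γ, r l ≤ val l (f α)) → E r = 0
  right : ∀ β r, (∀ l ∈ Γ, l.b - val l (g β) ≤ r l) → E r = 1
  prog : ∀ (𝓕 : Set (Fn m)) (H : Fn m) (r : Graph m → Ineq n → ℝ), H ∈ 𝓕 →
    (∀ l ∈ Γ, ∃ H', Coarser H' H ∧ pair H' (fun p => r p l) ∈ 𝓕) →
    ∃ 𝓖, Ext 𝓕 N 𝓖 ∧ pair H (fun p => E (r p)) ∈ 𝓖

/-- (EVD) a leaf -/
def ST_EVD : Prop := ∀ (n m : ℕ) (A B : Type) [Finite A] [Nonempty A] [Finite B]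
  (K : (Pair n → ℤ) → Prop) (f : A → Pair n → ℤ) (g : B → Pair n → ℤ),
  (∀ α β, K (fun e => f α e + g β e)) →
  ∀ (Γ : Set (Ineq n)) (u : Ineq n), u ∈ Γ → (∀ x, K x → ¬ u.Holds x) → ∃ E, Evl m f g Γ 1 E

/-- (EVC) a cut -/
def ST_EVC : Prop := ∀ (n m : ℕ) (A B : Type) [Finite A] [Nonempty A] [Finite B]
  (K : (Pair n → ℤ) → Prop) (f : A → Pair n → ℤ) (g : B → Pair n → ℤ),
  (∀ α β, K (fun e => f α e + g β e)) →
  ∀ (Γ : Set (Ineq n)) (u w l : Ineq n) (N : ℕ), u ∈ Γ → w ∈ Γ →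
  (∀ x, K x → u.Holds x → w.Holds x → l.Holds x) →
  (∃ E, Evl m f g (insert l Γ) N E) → ∃ E, Evl m f g Γ (N + 2) E

/-- (EVB) a branching; the first subtree is evaluated `κ` times, the second one once -/
def ST_EVB : Prop := ∀ (n m : ℕ) (A B : Type) [Finite A] [Nonempty A] [Finite B]
  (f : A → Pair n → ℤ) (g : B → Pair n → ℤ) (κ : ℕ), Nat.card A + 1 ≤ 2 ^ κ →
  ∀ (Γ : Set (Ineq n)) (a : Pair n → ℤ) (b : ℤ) (N N' : ℕ),
  (∃ E, Evl m f g (insert ⟨fun e => -(a e : ℝ), -(b : ℝ)⟩ Γ) N E) →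
  (∃ E, Evl m f g (insert ⟨fun e => (a e : ℝ), (b : ℝ) + 1⟩ Γ) N' E) →
  ∃ E, Evl m f g Γ (κ * (N + 1) + 1 + N') E

/-- (EV) all proofs (from EVD, EVC, EVB) -/
def ST_EV : Prop := ∀ (n m : ℕ) (A B : Type) [Finite A] [Nonempty A] [Finite B]
  (K : (Pair n → ℤ) → Prop) (f : A → Pair n → ℤ) (g : B → Pair n → ℤ),
  (∀ α β, K (fun e => f α e + g β e)) → ∀ κ : ℕ, Nat.card A + 1 ≤ 2 ^ κ →
  ∀ (Γ : Set (Ineq n)) (t : ℕ), Refutes K Γ t →
    ∃ N E, N ≤ 2 * t * (κ + 1) ^ Nat.log 2 t ∧ Evl m f g Γ N E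

/-- (COR) cliques of transversals against colourings (a copy of CORE) -/
def ST_COR : Prop := ∀ (s : ℕ), 3 ≤ s → ∀ (E : Type) (C : List (Gate E))
  (D : E → Graph ((4 * s ^ 2 + 1) * (8 * s)) → ℝ) (θ : ℝ),
  (∀ g ∈ C, g.Mono) → (∀ e, Simple (D e)) →
  (∀ σ : Fin (4 * s ^ 2 + 1) → Fin (8 * s), out (fun e => D e (clq (trv σ))) C ≤ θ) →
  (∀ χ : Fin ((4 * s ^ 2 + 1) * (8 * s)) → Fin (4 * s ^ 2),
    θ < out (fun e => D e (mpt χ)) C) →
  2 ^ s ≤ 2 * C.length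

/-- (LB) the lower bound (from PAIR, CIRC, EV, COR) -/
def ST_LB : Prop := ∀ (s : ℕ), 3 ≤ s → ∀ (n : ℕ) (K : (Pair n → ℤ) → Prop)
  (f : (Fin (4 * s ^ 2 + 1) → Fin (8 * s)) → Pair n → ℤ)
  (g : (Fin ((4 * s ^ 2 + 1) * (8 * s)) → Fin (4 * s ^ 2)) → Pair n → ℤ),
  Split K (fun σ => clq (trv σ)) (fun χ => mpt χ) f g →
  ∀ t, Refutes K (Set.range nonneg) t →
    2 ^ s ≤ 12 * t * ((4 * s ^ 2 + 1) * (8 * s) + 1) ^ Nat.log 2 t + 2

/-! ## Part II: integral vectors on the lattice -/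

/-- the choices of docked subcolumns, one for each clause; not necessarily true literals -/
structure PChoice (s : List Sub) (ch : ℕ → Bool) : Prop where
  dk : ∀ k, ch k = true → ∃ i, sg s k = some (i, true)
  one : ∀ k n, sg s k = none → k < s.length → (∀ l, k < l → l ≤ k + n → sg s l ≠ none) →
    sg s (k + n + 1) = none → ∃ l, (k < l ∧ l ≤ k + n ∧ ch l = true) ∧
      ∀ l', k < l' → l' ≤ k + n → ch l' = true → l' = l

/-- the middle edge (to the right of `(x, y)`) of the first strand of a docked block which is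
chosen, but in the state `false` -/
def isBad (s : List Sub) (a ch : ℕ → Bool) (x y : ℕ) : Bool :=
  decide (5 ≤ x ∧ 4 ≤ y ∧ (x - 5) % 4 = 1 ∧ (y - 4) % 6 = 1 ∧
    sg s ((x - 5) / 4) = some ((y - 4) / 6, true)) && ch ((x - 5) / 4) &&
    !(bst s a ((y - 4) / 6) ((x - 5) / 4))

/-- value of the edge from `(x, y)` to `(x + 1, y)` -/
def XH (s : List Sub) (M : ℕ) (a ch : ℕ → Bool) (x y : ℕ) : ℤ :=
  ((hUse s M a ch x y).toNat : ℤ) - ((isBad s a ch x y).toNat : ℤ)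

/-- value of the edge from `(x, y)` to `(x, y + 1)` -/
def XV (s : List Sub) (M : ℕ) (a ch : ℕ → Bool) (x y : ℕ) : ℤ := ((vUse s M a ch x y).toNat : ℤ)

/-- (ADD) the vectors are affine in the assignment and the choices -/
def ST_ADD : Prop := ∀ (s : List Sub) (M : ℕ), (∀ k i d, sg s k = some (i, d) → i < 2 * M + 1) →
  ∀ x y, (∃ u w : Bool → ℤ, ∀ a ch, XH s M a ch x y = u (a ((y - 4) / 6)) + w (ch ((x - 5) / 4))) ∧
    ∃ u w : Bool → ℤ, ∀ a ch, XV s M a ch x y = u (a ((y - 4) / 6)) + w (ch ((x - 5) / 4))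

open Classical in
/-- integral vectors which satisfy everything but the nonnegativity -/
structure LV (h v : ℕ → ℕ → ℕ) (X Y : ℕ → ℕ → ℤ) : Prop where
  h0 : ∀ x y, h x y = 0 → X x y = 1
  h4 : ∀ x y, h x y ≠ 0 → h x y ≠ 2 → X x y = 0
  v0 : ∀ x y, v x y = 0 → Y x y = 1
  v4 : ∀ x y, v x y ≠ 0 → v x y ≠ 2 → Y x y = 0
  hle : ∀ x y, X x y ≤ 1
  vle : ∀ x y, Y x y ≤ 1
  hV : ∀ x y, X x y ≠ 0 → Vert h v (x, y) ∧ Vert h v (x + 1, y)
  vV : ∀ x y, Y x y ≠ 0 → Vert h v (x, y) ∧ Vert h v (x, y + 1)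
  deg : ∀ x y, Vert h v (x + 1, y + 1) →
    X (x + 1) (y + 1) + X x (y + 1) + Y (x + 1) (y + 1) + Y (x + 1) y = 2
  cut : ∀ N, Box h v N → ∀ S : Pt → Prop, (∃ a, Vert h v a ∧ S a) →
    (∃ b, Vert h v b ∧ ¬ S b) →
    0 < ∑ x ∈ Finset.range (N + 1), ∑ y ∈ Finset.range (N + 1),
      ((if (S (x, y) ↔ S (x + 1, y)) then 0 else X x y) +
        (if (S (x, y) ↔ S (x, y + 1)) then 0 else Y x y))

/-- (DEG) everything except `cut` -/
def ST_DEG : Prop := ∀ (s : List Sub) (M : ℕ) (a ch : ℕ → Bool),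
  (∀ k i d, sg s k = some (i, d) → i < 2 * M + 1) → (0 < s.length → sg s 0 = none) →
  PChoice s ch →
  (∀ x y, hC s M x y = 0 → XH s M a ch x y = 1) ∧
  (∀ x y, hC s M x y ≠ 0 → hC s M x y ≠ 2 → XH s M a ch x y = 0) ∧
  (∀ x y, vC s M x y = 0 → XV s M a ch x y = 1) ∧
  (∀ x y, vC s M x y ≠ 0 → vC s M x y ≠ 2 → XV s M a ch x y = 0) ∧
  (∀ x y, XH s M a ch x y ≤ 1) ∧ (∀ x y, XV s M a ch x y ≤ 1) ∧
  (∀ x y, XH s M a ch x y ≠ 0 → Vert (hC s M) (vC s M) (x, y) ∧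
    Vert (hC s M) (vC s M) (x + 1, y)) ∧
  (∀ x y, XV s M a ch x y ≠ 0 → Vert (hC s M) (vC s M) (x, y) ∧
    Vert (hC s M) (vC s M) (x, y + 1)) ∧
  (∀ x y, Vert (hC s M) (vC s M) (x + 1, y + 1) →
    XH s M a ch (x + 1) (y + 1) + XH s M a ch x (y + 1) + XV s M a ch (x + 1) (y + 1) +
      XV s M a ch (x + 1) y = 2)

/-- the used edges which are not on the detours at the bad blocks: horizontal -/
def OKh (s : List Sub) (a ch : ℕ → Bool) (x y : ℕ) : Prop := isBad s a ch x (y + 1) = false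

/-- the used edges which are not on the detours at the bad blocks: vertical -/
def OKv (s : List Sub) (a ch : ℕ → Bool) (x y : ℕ) : Prop :=
  isBad s a ch x (y + 1) = false ∧ isBad s a ch (x - 1) (y + 1) = false

/-- (CON1) a set which is closed under the used edges not on the detours of the bad blocks does
not separate the ends of the middle edge of a bad block -/
def ST_CON1 : Prop := ∀ (s : List Sub) (M : ℕ) (a ch : ℕ → Bool),
  (∀ k i d, sg s k = some (i, d) → i < 2 * M + 1) → (0 < s.length → sg s 0 = none) →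
  PChoice s ch → ∀ S : Pt → Prop,
    (∀ x y, hUse s M a ch x y = true → OKh s a ch x y → (S (x, y) ↔ S (x + 1, y))) →
    (∀ x y, vUse s M a ch x y = true → OKv s a ch x y → (S (x, y) ↔ S (x, y + 1))) →
    ∀ x y, isBad s a ch x y = true → (S (x, y) ↔ S (x + 1, y))

/-- (CON2) connectedness, for choices which need not be true (compare `S_Conn`) -/
def ST_CON2 : Prop := ∀ (s : List Sub) (M : ℕ) (a ch : ℕ → Bool),
  (∀ k i d, sg s k = some (i, d) → i < 2 * M + 1) → (0 < s.length → sg s 0 = none) →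
  PChoice s ch → ∀ S : Pt → Prop,
    (∀ x y, hUse s M a ch x y = true → (S (x, y) ↔ S (x + 1, y))) →
    (∀ x y, vUse s M a ch x y = true → (S (x, y) ↔ S (x, y + 1))) →
    ∀ b, Vert (hC s M) (vC s M) b → (S b ↔ S (1, 3))

/-- (CUT) the cut condition (from DEG, CON1, CON2) -/
def ST_CUT : Prop := ∀ (s : List Sub) (M : ℕ) (a ch : ℕ → Bool),
  (∀ k i d, sg s k = some (i, d) → i < 2 * M + 1) → (0 < s.length → sg s 0 = none) →
  PChoice s ch → LV (hC s M) (vC s M) (XH s M a ch) (XV s M a ch)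

/-! ## Part III: from the lattice to the plane -/

/-- the vector on the pairs of cities -/
def xv {n : ℕ} (X Y : ℕ → ℕ → ℤ) (p : Fin n → Pt) (e : Pair n) : ℤ :=
  ucost X Y 0 (p e.1.1) (p e.1.2)

/-- (SUM) sums over the pairs of cities are sums over the lattice edges -/
def ST_SUM : Prop := ∀ (n N : ℕ) (h v : ℕ → ℕ → ℕ) (X Y : ℕ → ℕ → ℤ) (p : Fin n → Pt)
  (w : Pt → Pt → ℝ), Box h v N → (∀ a b, w a b = w b a) →
  (∀ x y, X x y ≠ 0 → Vert h v (x, y) ∧ Vert h v (x + 1, y)) →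
  (∀ x y, Y x y ≠ 0 → Vert h v (x, y) ∧ Vert h v (x, y + 1)) →
  Function.Injective p → (∀ a, Vert h v a ↔ ∃ i, p i = a) →
  ∑ e : Pair n, w (p e.1.1) (p e.1.2) * (xv X Y p e : ℝ) =
    ∑ x ∈ Finset.range (N + 1), ∑ y ∈ Finset.range (N + 1),
      (w (x, y) (x + 1, y) * (X x y : ℝ) + w (x, y) (x, y + 1) * (Y x y : ℝ))

/-- (REL) the vectors satisfy the relaxation (from SUM) -/
def ST_REL : Prop := ∀ (n N W : ℕ) (h v : ℕ → ℕ → ℕ) (X Y : ℕ → ℕ → ℤ) (p : Fin n → Pt),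
  Box h v N → Costs h v → LV h v X Y → 2 ≤ n → Function.Injective p →
  (∀ a, Vert h v a ↔ ∃ i, p i = a) → W + ∑ i, Pool.Agent.Helper68.LP.fdeg h v (p i) = 2 * n →
  Relax (fun i => pert (dbl h) (dbl v) (scale n (2 * N) 4 W : ℕ) (p i))
    ((n * scale n (2 * N) 4 W + (2 * W + 1) : ℕ) : ℝ) (xv X Y p)

/-- (NOT) no short tours if the lattice graph has no tour -/
def ST_NOT : Prop := ∀ (h v : ℕ → ℕ → ℕ) (N W : ℕ) (L : List Pt), Box h v N → Costs h v →
  L.Nodup → (∀ a, a ∈ L ↔ Vert h v a) → 3 ≤ L.length →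
  W + (L.map (Pool.Agent.Helper68.LP.fdeg h v)).sum = 2 * L.length → (¬ ∃ T, Tour h v T) →
  ∀ σ, ((L.length * scale L.length (2 * N) 4 W + (2 * W + 1) : ℕ) : ℝ) <
    tourLen (fun i => pert (dbl h) (dbl v) (scale L.length (2 * N) 4 W : ℕ) (L.get i)) σ

/-- (SND) the lattice graph of an unsatisfiable formula has no tour -/
def ST_SND : Prop := ∀ (φ : CNF) (M : ℕ), (∀ c ∈ φ, ∀ l ∈ c, l.1 < 2 * M + 1) →
  (∃ T, Tour (hC (subs φ) M) (vC (subs φ) M) T) → ∃ a, φ.Sat a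

/-! ## Part IV: the clique-colouring formula -/

/-- clauses with a chosen literal (given by its position) -/
abbrev PCl := List (List (ℕ × Bool) × ℕ)

/-- number of the variable: vertex `v` has colour `c` -/
def vr (m l v c : ℕ) : ℕ := m + (v * l + c)

/-- number of the variable: the vertices `u < v` have the same colour -/
def vb (m l u v : ℕ) : ℕ := m + m * l + (u * m + v)

/-- Alice's clauses: a vertex is chosen in each of the `k` blocks of size `q`, and chosen vertices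
do not have the same colour; `In v`: the vertex `v` is chosen, `sel i`: position of the chosen
vertex in the block `i` -/
def pcA (k q l : ℕ) (In : ℕ → Bool) (sel : ℕ → ℕ) : PCl :=
  (List.range k).map (fun i => ((List.range q).map fun j => (j + q * i, true), sel i)) ++
  (List.range (k * q)).flatMap fun u => (List.range (k * q)).flatMap fun v =>
    if u < v then
      [([(u, false), (v, false), (vb (k * q) l u v, false)],
        if In u = false then 0 else if In v = false then 1 else 2)]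
    else []

/-- Bob's clauses: each of the `m` vertices has one of the `l` colours, and `vb u v` is true for
vertices of the same colour; `col v`: the colour of `v` -/
def pcB (m l : ℕ) (col : ℕ → ℕ) : PCl :=
  (List.range m).map (fun v => ((List.range l).map fun c => (vr m l v c, true), col v)) ++
  (List.range m).flatMap fun u => (List.range m).flatMap fun v => (List.range l).flatMap fun c =>
    if u < v then
      [([(vr m l u c, false), (vr m l v c, false), (vb m l u v, true)],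
        if col u ≠ c then 0 else if col v ≠ c then 1 else 2)]
    else []

/-- the formula -/
def ccF (k q l : ℕ) : CNF :=
  (pcA k q l (fun _ => false) (fun _ => 0)).map Prod.fst ++
    (pcB (k * q) l (fun _ => 0)).map Prod.fst

/-- the choices of subcolumns -/
def chs (pc : PCl) : List Bool :=
  pc.flatMap fun x => false :: x.1.zipIdx.flatMap fun y =>
    [decide (y.2 = x.2) && y.1.2, decide (y.2 = x.2) && !y.1.2]

/-- the choices of subcolumns as a function -/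
def chf (pc : PCl) (k : ℕ) : Bool := (chs pc).getD k false

/-- (CHS) choosing literals -/
def ST_CHS : Prop := ∀ pc : PCl, (∀ x ∈ pc, x.2 < x.1.length) →
  PChoice (subs (pc.map Prod.fst)) (chf pc) ∧
  (chs pc).length = (subs (pc.map Prod.fst)).length ∧
  ∀ k, chf pc k = true → ∃ x ∈ pc, ∃ l, x.1[x.2]? = some l ∧
    sg (subs (pc.map Prod.fst)) k = some (l.1, true) ∧
    ∀ a, bst (subs (pc.map Prod.fst)) a l.1 k = (a l.1 == l.2)

/-- is the vertex `v` in the transversal -/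
def inn {k q : ℕ} (σ : Fin k → Fin q) (v : ℕ) : Bool :=
  if h : v < k * q then decide ((⟨v, h⟩ : Fin (k * q)) ∈ trv σ) else false

/-- position of the chosen vertex -/
def sel {k q : ℕ} (σ : Fin k → Fin q) (i : ℕ) : ℕ := if h : i < k then (σ ⟨i, h⟩ : ℕ) else 0

/-- colour of a vertex -/
def col {m l : ℕ} (χ : Fin m → Fin l) (v : ℕ) : ℕ := if h : v < m then (χ ⟨v, h⟩ : ℕ) else 0

/-- the assignment of `σ` and `χ` -/
def asg {k q l : ℕ} (σ : Fin k → Fin q) (χ : Fin (k * q) → Fin l) (i : ℕ) : Bool :=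
  if i < k * q then inn σ i
  else if i < k * q + k * q * l then
    decide (col χ ((i - k * q) / l) = (i - k * q) % l)
  else decide (col χ ((i - k * q - k * q * l) / (k * q)) = col χ ((i - k * q - k * q * l) % (k * q)))

/-- the chosen literals of `σ` and `χ` -/
def pcc {k q l : ℕ} (σ : Fin k → Fin q) (χ : Fin (k * q) → Fin l) : PCl :=
  pcA k q l (inn σ) (sel σ) ++ pcB (k * q) l (col χ)

/-- number of rows: `2 * ccM + 1` -/
def ccM (k q l : ℕ) : ℕ := k * q + k * q * l + (k * q) * (k * q)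

/-- (UNS) the formula is not satisfiable -/
def ST_UNS : Prop := ∀ k q l : ℕ, l < k → ¬ ∃ a, (ccF k q l).Sat a

/-- (FRM) the formula does not depend on the choices, chosen literals exist, the variables are in
the right range, and `asg`, `chf` are separable -/
def ST_FRM : Prop := ∀ (k q l : ℕ) (σ : Fin k → Fin q) (χ : Fin (k * q) → Fin l),
  (pcc σ χ).map Prod.fst = ccF k q l ∧ (∀ x ∈ pcc σ χ, x.2 < x.1.length) ∧
  (∀ c ∈ ccF k q l, ∀ y ∈ c, y.1 < 2 * ccM k q l + 1) ∧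
  (∀ i, (∀ (σ' : Fin k → Fin q) (χ' : Fin (k * q) → Fin l), asg σ χ i = asg σ' χ i ∧
      asg σ χ' i = asg σ' χ' i) ∨
    ∀ (σ' : Fin k → Fin q) (χ' : Fin (k * q) → Fin l), asg σ χ i = asg σ χ' i ∧
      asg σ' χ i = asg σ' χ' i) ∧
  (∀ j, (∀ (σ' : Fin k → Fin q) (χ' : Fin (k * q) → Fin l), chf (pcc σ χ) j = chf (pcc σ' χ) j ∧
      chf (pcc σ χ') j = chf (pcc σ' χ') j) ∨
    ∀ (σ' : Fin k → Fin q) (χ' : Fin (k * q) → Fin l), chf (pcc σ χ) j = chf (pcc σ χ') j ∧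
      chf (pcc σ' χ) j = chf (pcc σ' χ') j)

/-- (LIT) the chosen literals are true, except those for chosen vertices of the same colour -/
def ST_LIT : Prop := ∀ (k q l : ℕ) (σ : Fin k → Fin q) (χ : Fin (k * q) → Fin l),
  ∀ x ∈ pcc σ χ, ∀ y, x.1[x.2]? = some y → asg σ χ y.1 ≠ y.2 →
    ∃ u v : Fin (k * q), u < v ∧ y.1 = vb (k * q) l u v ∧ u ∈ trv σ ∧ v ∈ trv σ ∧ χ u = χ v

/-- (SPL) the split (from ADD, CUT, REL, CHS, FRM, LIT) -/
def ST_SPL : Prop := ∀ (k q l N W n : ℕ) (p : Fin n → Pt), 0 < q → 0 < l → 2 ≤ k → 2 ≤ n →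
  Box (hC (subs (ccF k q l)) (ccM k q l)) (vC (subs (ccF k q l)) (ccM k q l)) N →
  Function.Injective p →
  (∀ a, Vert (hC (subs (ccF k q l)) (ccM k q l)) (vC (subs (ccF k q l)) (ccM k q l)) a ↔
    ∃ i, p i = a) →
  W + ∑ i, Pool.Agent.Helper68.LP.fdeg (hC (subs (ccF k q l)) (ccM k q l))
    (vC (subs (ccF k q l)) (ccM k q l)) (p i) = 2 * n →
  ∃ (f : (Fin k → Fin q) → Pair n → ℤ) (g : (Fin (k * q) → Fin l) → Pair n → ℤ),
    Split (Relax (fun i => pert (dbl (hC (subs (ccF k q l)) (ccM k q l)))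
        (dbl (vC (subs (ccF k q l)) (ccM k q l))) (scale n (2 * N) 4 W : ℕ) (p i))
      ((n * scale n (2 * N) 4 W + (2 * W + 1) : ℕ) : ℝ))
      (fun σ => clq (trv σ)) (fun χ => mpt χ) f g

/-- (SIZ) the number of vertices -/
def ST_SIZ : Prop := ∀ (M : ℕ) (S : List Sub) (L : List Pt), L.Nodup →
  (∀ a, a ∈ L ↔ Vert (hC S M) (vC S M) a) →
  L.length ≤ (8 + 4 * S.length) * (10 + 12 * M) ∧ 4 * S.length + 12 * M ≤ 2 * L.length

/-- (SIZF) the size of the formula -/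
def ST_SIZF : Prop := ∀ (k q l : ℕ), 1 ≤ k → 1 ≤ q → 1 ≤ l →
  (subs (ccF k q l)).length ≤ 20 * (k * q) ^ 2 * l ∧ k ≤ (subs (ccF k q l)).length

/-- (NUM) the numerical part -/
def ST_NUM : Prop := ∃ s₀ : ℕ, ∀ s, s₀ ≤ s → ∀ n : ℕ, n ≤ 10 ^ 12 * s ^ 14 → ∀ t : ℕ,
  2 ^ s ≤ 12 * t * ((4 * s ^ 2 + 1) * (8 * s) + 1) ^ Nat.log 2 t + 2 →
  Real.exp ((n : ℝ) ^ (1 / 15 : ℝ)) ≤ t

end Pool.Agent.Helper31.BC
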