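import Pool.Agent.Helper31.BC.Stmts

set_option autoImplicit false

/-! Existence of branch-and-cut proofs. -/

namespace Pool.Agent.Helper31.BC

/-- (TR) integral vectors between 0 and 1 which satisfy the degree equations and the subtour
inequalities are the tours -/
def ST_TR : Prop := ∀ (n : ℕ) (x : Pair n → ℤ), 3 ≤ n → (∀ e, 0 ≤ x e ∧ x e ≤ 1) →
  (∀ v : Fin n, ∑ e : Pair n, (if e.1.1 = v ∨ e.1.2 = v then x e else 0) = 2) →
  (∀ S : Finset (Fin n), S.Nonempty → S ≠ Finset.univ →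
    2 ≤ ∑ e : Pair n, (if (e.1.1 ∈ S ↔ e.1.2 ∈ S) then 0 else x e)) →
  ∃ σ : Equiv.Perm (Fin n), ∀ w : Fin n → Fin n → ℝ, (∀ i j, w i j = w j i) →
    ∑ e : Pair n, w e.1.1 e.1.2 * x e = ∑ i, w (σ i) (σ (finRotate n i))

/-- (CPL) if all variables are fixed, there is a proof -/
def ST_CPL : Prop := ∀ (n R : ℕ) (K : (Pair n → ℤ) → Prop) (Γ : Set (Ineq n)) (z : Pair n → ℤ),
  (∀ x, K x → ∀ e, |x e - z e| ≤ R) → ¬ K z →
  (∀ e, (⟨fun e' => if e' = e then 1 else 0, (z e : ℝ)⟩ : Ineq n) ∈ Γ) →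
  (∀ e, (⟨fun e' => if e' = e then -1 else 0, -(z e : ℝ)⟩ : Ineq n) ∈ Γ) →
  ∃ t, Refutes K Γ t

/-- (EX) branch-and-cut proofs exist (from TR, CPL) -/
def ST_EX : Prop := ∀ (n : ℕ) (P : Fin n → ℤ × ℤ) (B : ℝ), 3 ≤ n → (∀ σ, B < tourLen P σ) →
  ∃ t, Refutes (Relax P B) (Set.range nonneg) t

/-- The final theorem, with the existence of proofs. -/
def specFinal2 : Prop := ∃ k : ℕ, ∀ N : ℕ, ∃ n, N ≤ n ∧ ∃ (P : Fin n → ℤ × ℤ) (B : ℕ),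
  Placement (n ^ k) P ∧ (∀ σ, (B : ℝ) < tourLen P σ) ∧
  (∃ t, Refutes (Relax P B) (Set.range nonneg) t) ∧
  ∀ t, Refutes (Relax P B) (Set.range nonneg) t → Real.exp ((n : ℝ) ^ (1 / 15 : ℝ)) ≤ t

theorem final2 (h : specFinal) (hEX : ST_EX) : specFinal2 := by
  obtain ⟨k, hk⟩ := h
  refine ⟨k, fun N => ?_⟩
  obtain ⟨n, hn, P, B, h1, h2, h3⟩ := hk (N + 3)
  exact ⟨n, by omega, P, B, h1, h2, hEX n P B (by omega) h2, h3⟩

end Pool.Agent.Helper31.BC
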